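import Pool.Agent.Helper66_D2.Stmts

/-!
# Part D2, module NCQ
-/

set_option linter.unusedSectionVars false

noncomputable section

namespace Pool.Agent.PP.CD2.H30

open Pool.Agent.PP Pool.Agent.Helper51_AWC Pool.Agent.Helper79_WRA

/-- in a cyclic group the elements of order dividing `ℓ` are the powers of an element of order
`ℓ` -/
theorem mem_zpowers_of_pow_eq_one {G : Type} [Group G] [Finite G] {P : Subgroup G}
    (hP : IsCyclic P) {ℓ : ℕ} (hℓ : 0 < ℓ) {y₁ y : G} (hy₁ : y₁ ∈ P) (ho : orderOf y₁ = ℓ)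
    (hy : y ∈ P) (h1 : y ^ ℓ = 1) : y ∈ Subgroup.zpowers y₁ := by
  classical
  have : Fintype P := Fintype.ofFinite P
  have h := IsCyclic.card_pow_eq_one_le (α := P) hℓ
  set S : Finset P := Finset.univ.filter fun a : P => a ^ ℓ = 1 with hS
  set u : P := ⟨y₁, hy₁⟩ with hu
  have hou : orderOf u = ℓ := by
    rw [← ho, hu]
    exact Subgroup.orderOf_mk y₁ hy₁
  set T : Finset P := (Finset.range ℓ).image fun i => u ^ i with hT
  have hTc : T.card = ℓ := by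
    rw [hT, Finset.card_image_of_injOn, Finset.card_range]
    intro i hi j hj hij
    have hi' : i < orderOf u := by rw [hou]; exact Finset.mem_range.1 hi
    have hj' : j < orderOf u := by rw [hou]; exact Finset.mem_range.1 hj
    exact pow_injOn_Iio_orderOf hi' hj' hij
  have hsub : T ⊆ S := by
    intro a ha
    rw [hT, Finset.mem_image] at ha
    obtain ⟨i, _, rfl⟩ := ha
    rw [hS, Finset.mem_filter]
    refine ⟨Finset.mem_univ _, ?_⟩
    rw [← pow_mul, mul_comm, pow_mul, ← hou, pow_orderOf_eq_one, one_pow]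
  have heq : T = S := Finset.eq_of_subset_of_card_le hsub (by rw [hTc]; exact h)
  have hmem : (⟨y, hy⟩ : P) ∈ S := by
    rw [hS, Finset.mem_filter]
    refine ⟨Finset.mem_univ _, ?_⟩
    apply Subtype.ext
    exact h1
  rw [← heq, hT, Finset.mem_image] at hmem
  obtain ⟨i, _, hi⟩ := hmem
  have h2 : y₁ ^ i = y := congrArg Subtype.val hi
  rw [← h2]
  exact Subgroup.npow_mem_zpowers y₁ i

theorem ncq : NcqStmt := by
  intro ℓ hℓ G H _ _ _ _ p hp y₁ hy hc hk P _ hcyc hyP z hz hzo x' hx'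
  obtain ⟨y₂, hy₂, rfl⟩ := hz
  obtain ⟨x, rfl⟩ := hp x'
  have hpr : ℓ.Prime := hℓ.out
  have hy₁ker : p y₁ = 1 := by
    have : y₁ ∈ p.ker := by
      rw [hk]
      exact Subgroup.mem_zpowers y₁
    exact this
  -- y₂ ^ ℓ is central and of order ℓ
  have h1 : y₂ ^ ℓ ∈ Subgroup.zpowers y₁ := by
    rw [← hk, MonoidHom.mem_ker, map_pow, ← hzo, pow_orderOf_eq_one]
  have hcen : Subgroup.zpowers y₁ ≤ Subgroup.center G := by
    rw [Subgroup.zpowers_le]
    exact hc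
  have h2 : y₂ ^ ℓ ≠ 1 := by
    intro h
    have h3 := mem_zpowers_of_pow_eq_one hcyc hpr.pos hyP hy hy₂ h
    rw [← hk, MonoidHom.mem_ker] at h3
    rw [h3, orderOf_one] at hzo
    exact hpr.one_lt.ne hzo
  have hpow : ∀ t ∈ Subgroup.zpowers y₁, t ^ ℓ = 1 := by
    intro t ht
    obtain ⟨i, rfl⟩ := Subgroup.mem_zpowers_iff.1 ht
    rw [← zpow_natCast, ← zpow_mul, mul_comm, zpow_mul, zpow_natCast, ← hy, pow_orderOf_eq_one,
      one_zpow]
  have h3 : orderOf (y₂ ^ ℓ) = ℓ := by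
    have h4 := orderOf_dvd_of_pow_eq_one (hpow _ h1)
    rcases (Nat.dvd_prime hpr).1 h4 with h5 | h5
    · exact absurd (orderOf_eq_one_iff.1 h5) h2
    · exact h5
  -- the action of x
  have h4 : p x * p y₂ * (p x)⁻¹ ∈ Subgroup.zpowers (p y₂) :=
    (Subgroup.mem_normalizer_iff.1 hx' (p y₂)).1 (Subgroup.mem_zpowers _)
  obtain ⟨k, hk'⟩ := Subgroup.mem_zpowers_iff.1 h4
  have h5 : (y₂ ^ k)⁻¹ * (x * y₂ * x⁻¹) ∈ Subgroup.zpowers y₁ := by
    rw [← hk, MonoidHom.mem_ker, map_mul, map_inv, map_zpow, map_mul, map_mul, map_inv, hk',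
      inv_mul_cancel]
  set c := (y₂ ^ k)⁻¹ * (x * y₂ * x⁻¹) with hcdef
  have h6 : x * y₂ * x⁻¹ = y₂ ^ k * c := by
    rw [hcdef, mul_inv_cancel_left]
  have hcc : Commute (y₂ ^ k) c := ((Subgroup.mem_center_iff.1 (hcen h5) (y₂ ^ k)))
  have h7 : (x * y₂ * x⁻¹) ^ ℓ = y₂ ^ ℓ := by
    rw [conj_pow]
    have := Subgroup.mem_center_iff.1 (hcen h1) x
    rw [this, mul_assoc, mul_inv_cancel, mul_one]
  have h8 : (y₂ ^ ℓ) ^ (k - 1) = 1 := by
    rw [h6, hcc.mul_pow, hpow c h5, mul_one] at h7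
    have e1 : (y₂ ^ ℓ) ^ k = (y₂ ^ k) ^ ℓ := by
      rw [← zpow_natCast y₂ ℓ, ← zpow_natCast (y₂ ^ k) ℓ, ← zpow_mul, ← zpow_mul, mul_comm]
    rw [zpow_sub, zpow_one, e1, h7, mul_inv_cancel]
  have h9 : (ℓ : ℤ) ∣ k - 1 := by
    rw [← h3]
    exact orderOf_dvd_iff_zpow_eq_one.2 h8
  have h10 : p y₂ ^ k = p y₂ := by
    obtain ⟨m, hm⟩ := h9
    have : k = 1 + ℓ * m := by rw [← hm]; ring
    rw [this, zpow_add, zpow_one, zpow_mul, zpow_natCast, ← hzo, pow_orderOf_eq_one, one_zpow,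
      mul_one]
  have h11 : p x * p y₂ = p y₂ * p x := by
    rw [h10] at hk'
    rw [eq_mul_inv_iff_mul_eq] at hk'
    exact hk'.symm
  refine Subgroup.mem_centralizer_iff.2 ?_
  intro t ht
  obtain ⟨i, rfl⟩ := Subgroup.mem_zpowers_iff.1 ht
  have : Commute (p x) (p y₂) := h11
  exact (this.zpow_right i).eq.symm

end Pool.Agent.PP.CD2.H30
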