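import Pool.Agent.Helper66_D2.Stmts

/-!
# Part D2, module PSP
-/

open scoped BigOperators

set_option linter.unusedSectionVars false

noncomputable section

namespace Pool.Agent.PP.CD2.H30

open Pool.Agent.PP Pool.Agent.Helper51_AWC Pool.Agent.Helper79_WRA

variable {F G H : Type} [Field F] [Group G] [Finite G] [Group H] [Finite H]

theorem push_conj (p : G →* H) (z : G → F) (g : G) (y : H) :
    H75.push p (fun x => z (g⁻¹ * x * g)) y = H75.push p z ((p g)⁻¹ * y * p g) := by
  classical
  have := Fintype.ofFinite G
  rw [H75.push_eq, H75.push_eq, ← Equiv.sum_comp (MulAut.conj g).toEquiv]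
  apply Finset.sum_congr rfl
  intro t _
  change (if p (g * t * g⁻¹) = y then z (g⁻¹ * (g * t * g⁻¹) * g) else 0) = _
  have e1 : g⁻¹ * (g * t * g⁻¹) * g = t := by group
  have e2 : p (g * t * g⁻¹) = y ↔ p t = (p g)⁻¹ * y * p g := by
    rw [map_mul, map_mul, map_inv]
    constructor
    · rintro rfl
      group
    · intro h
      rw [h]
      group
  rw [e1]
  by_cases h : p t = (p g)⁻¹ * y * p g
  · rw [if_pos h, if_pos (e2.2 h)]
  · rw [if_neg h, if_neg fun h' => h (e2.1 h')]

open Classical in
/-- sums over a subgroup as sums over the group -/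
theorem sum_sub {K : Type} [Group K] [Finite K] [Fintype K] (Q : Subgroup K) (f : K → F) :
    ∑ᶠ q : Q, f q = ∑ x : K, if x ∈ Q then f x else 0 := by
  have := Fintype.ofFinite Q
  rw [finsum_eq_sum_of_fintype, ← Finset.sum_filter]
  symm
  apply Finset.sum_subtype (Finset.univ.filter fun x : K => x ∈ Q)
  intro x
  rw [Finset.mem_filter]
  exact ⟨fun h => h.2, fun h => ⟨Finset.mem_univ _, h⟩⟩

theorem psp : PspStmt := by
  classical
  intro F _ G H _ _ _ _ p hp P hker e he
  obtain ⟨c, z, hc, _, hz, he⟩ := he
  have := Fintype.ofFinite G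
  have := Fintype.ofFinite H
  refine ⟨H75.push p c, H75.push p z, ⟨fun g hg => absurd (Subgroup.mem_top g) hg, ?_⟩,
    fun x hx => absurd (Subgroup.mem_top x) hx, ?_, ?_⟩
  · intro h _
    obtain ⟨g, rfl⟩ := hp h
    have h1 := hc.sum g (Subgroup.mem_top g)
    rw [sum_sub P (fun x => c (g * x))] at h1
    rw [sum_sub (P.map p) (fun x => H75.push p c (p g * x)), ← h1]
    have h2 : ∀ y : H, (if y ∈ P.map p then H75.push p c (p g * y) else 0) =
        ∑ x : G, if p x = y then (if x ∈ P then c (g * x) else 0) else 0 := by
      intro y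
      by_cases hy : y ∈ P.map p
      · rw [if_pos hy, H75.push_eq, ← Equiv.sum_comp (Equiv.mulLeft g)]
        apply Finset.sum_congr rfl
        intro x _
        change (if p (g * x) = p g * y then c (g * x) else 0) = _
        by_cases hx : p x = y
        · have hxP : x ∈ P := by
            obtain ⟨q, hq, hqy⟩ := hy
            have h3 : q⁻¹ * x ∈ p.ker := by
              rw [MonoidHom.mem_ker, map_mul, map_inv, hqy, hx, inv_mul_cancel]
            have h4 := mul_mem hq (hker h3)
            rwa [mul_inv_cancel_left] at h4
          rw [if_pos hx, if_pos hxP, if_pos]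
          rw [map_mul, hx]
        · rw [if_neg hx, if_neg]
          intro h'
          apply hx
          rw [map_mul] at h'
          exact mul_left_cancel h'
      · rw [if_neg hy]
        symm
        apply Finset.sum_eq_zero
        intro x _
        by_cases hx : p x = y
        · rw [if_pos hx, if_neg]
          intro hxP
          exact hy ⟨x, hxP, hx⟩
        · rw [if_neg hx]
    rw [Finset.sum_congr rfl fun y _ => h2 y, Finset.sum_comm]
    apply Finset.sum_congr rfl
    intro x _
    rw [Finset.sum_ite_eq Finset.univ (p x), if_pos (Finset.mem_univ _)]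
  · rintro q ⟨t, ht, rfl⟩ x
    have h1 := push_conj p z t⁻¹ x
    rw [map_inv, inv_inv, inv_inv] at h1
    rw [← h1]
    congr 1
    funext y
    exact hz t ht y
  · intro y
    rw [H75.push_eq, finsum_eq_sum_of_fintype,
      H75.sum_push p c (fun h => H75.push p z (h⁻¹ * y * h))]
    have h2 : ∀ x : G, (if p x = y then e x else 0) =
        ∑ g : G, c g * (if p x = y then z (g⁻¹ * x * g) else 0) := by
      intro x
      by_cases hx : p x = y
      · rw [if_pos hx, he x, finsum_eq_sum_of_fintype]
        apply Finset.sum_congr rfl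
        intro g _
        rw [if_pos hx]
      · rw [if_neg hx]
        symm
        apply Finset.sum_eq_zero
        intro g _
        rw [if_neg hx, mul_zero]
    rw [Finset.sum_congr rfl fun x _ => h2 x, Finset.sum_comm]
    apply Finset.sum_congr rfl
    intro g _
    rw [← push_conj, H75.push_eq, Finset.mul_sum]

end Pool.Agent.PP.CD2.H30
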